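import Mathlib

-- merged part: Pool.Agent.Work.MP_ce8257_co.SSS
section
/-!
An auxiliary-polynomial inequality of Schur-Siegel-Smyth type: for a monic integer polynomial
whose roots are all real and nonpositive and which does not vanish at `-1`, the sum of
`r ^ 2 + r - 2` over the nonzero roots `r` is nonnegative.
-/

set_option autoImplicit false

open Polynomial

namespace Pool.Agent.Work.MP_ce8257_co

theorem log_le_tan (z c : ℝ) (hz : 0 < z) (hc : 0 < c) :
    Real.log z ≤ Real.log c + z / c - 1 := by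
  have h := Real.log_le_sub_one_of_pos (div_pos hz hc)
  rw [Real.log_div hz.ne' hc.ne'] at h
  linarith only [h]

theorem log_half : Real.log (1 / 2) = - Real.log 2 := by
  rw [one_div, Real.log_inv]

theorem log_quarter : Real.log (1 / 4) = - 2 * Real.log 2 := by
  have : (1 / 4 : ℝ) = (2 ^ 2)⁻¹ := by norm_num
  rw [this, Real.log_inv, Real.log_pow]; push_cast; ring

/-- The pointwise inequality, in terms of `t = -r > 0`. -/
theorem pointwise (t : ℝ) (ht : 0 < t) (h1 : t - 1 ≠ 0) (h2 : t - 2 ≠ 0)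
    (h3 : t ^ 2 - 3 * t + 1 ≠ 0) :
    5 / 2 * Real.log |t - 1| + 3 / 2 * Real.log |t - 2| + Real.log |t ^ 2 - 3 * t + 1|
      + 3 / 2 * Real.log t ≤ t ^ 2 - t - 2 := by
  have a1 : 0 < |t - 1| := abs_pos.mpr h1
  have a2 : 0 < |t - 2| := abs_pos.mpr h2
  have a3 : 0 < |t ^ 2 - 3 * t + 1| := abs_pos.mpr h3
  have l1 := Real.log_two_lt_d9
  have l2 := Real.log_two_gt_d9
  rcases le_or_gt t (1 / 2) with hA | hA
  · have e1 := log_le_tan _ 1 a1 one_pos
    have e2 := log_le_tan _ 2 a2 two_pos
    have e3 := log_le_tan _ (1 / 2) a3 (by norm_num)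
    have e4 := log_le_tan _ (1 / 4) ht (by norm_num)
    rw [Real.log_one] at e1
    rw [log_half] at e3
    rw [log_quarter] at e4
    rw [abs_of_neg (by linarith only [l1, l2, hA] : t - 1 < 0)] at e1 ⊢
    rw [abs_of_neg (by linarith only [l1, l2, hA] : t - 2 < 0)] at e2 ⊢
    rcases abs_cases (t ^ 2 - 3 * t + 1) with ⟨hq, _⟩ | ⟨hq, _⟩
    · rw [hq] at e3 ⊢; nlinarith only [l2, hA, e1, e2, e3, e4, ht, l1]
    · rw [hq] at e3 ⊢; nlinarith only [l2, hA, e1, e2, e3, e4, ht, a3, hq]
  rcases le_or_gt t (3 / 2) with hB | hB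
  · have e1 := log_le_tan _ (1 / 2) a1 (by norm_num)
    have e2 := log_le_tan _ 1 a2 one_pos
    have e3 := log_le_tan _ 1 a3 one_pos
    have e4 := log_le_tan _ 1 ht one_pos
    rw [Real.log_one] at e2 e3 e4
    rw [log_half] at e1
    rw [abs_of_neg (by linarith only [l1, l2, hB] : t - 2 < 0)] at e2 ⊢
    rw [abs_of_neg (by nlinarith only [hA, hB, ht, l1, l2] : t ^ 2 - 3 * t + 1 < 0)] at e3 ⊢
    rcases abs_cases (t - 1) with ⟨hq, _⟩ | ⟨hq, _⟩
    · rw [hq] at e1 ⊢; nlinarith only [hB, e1, e2, e3, e4, l1, l2]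
    · rw [hq] at e1 ⊢; nlinarith only [l2, hA, e1, e2, e3, e4, ht, l1]
  rcases le_or_gt t (14 / 5) with hC | hC
  · have e1 := log_le_tan _ 1 a1 one_pos
    have e2 := log_le_tan _ (1 / 2) a2 (by norm_num)
    have e3 := log_le_tan _ 1 a3 one_pos
    have e4 := log_le_tan _ 2 ht two_pos
    rw [Real.log_one] at e1 e3
    rw [log_half] at e2
    rw [abs_of_pos (by linarith only [l1, l2, hB] : 0 < t - 1)] at e1 ⊢
    rcases abs_cases (t - 2) with ⟨hq, _⟩ | ⟨hq, _⟩ <;>
    rcases abs_cases (t ^ 2 - 3 * t + 1) with ⟨hr, _⟩ | ⟨hr, _⟩ <;>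
    rw [hq] at e2 ⊢ <;> rw [hr] at e3 ⊢ <;> nlinarith only [l1, l2, hC, e1, e2, e3, e4, a2, hq, hr, ht, a3, hB]
  · have e1 := log_le_tan _ 2 a1 two_pos
    have e2 := log_le_tan _ 1 a2 one_pos
    have e3 := log_le_tan _ 2 a3 two_pos
    have e4 := log_le_tan _ 2 ht two_pos
    rw [Real.log_one] at e2
    rw [abs_of_pos (by linarith only [l1, l2, hC] : 0 < t - 1)] at e1 ⊢
    rw [abs_of_pos (by linarith only [l1, l2, hC] : 0 < t - 2)] at e2 ⊢
    rw [abs_of_pos (by nlinarith only [l1, l2, hC, ht] : 0 < t ^ 2 - 3 * t + 1)] at e3 ⊢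
    nlinarith only [l1, l2, e1, e2, e3, e4, sq_nonneg (t - 3)]

/-- The weight of a root. -/
noncomputable def wt (r : ℝ) : ℝ := if r = 0 then 0 else r ^ 2 + r - 2

theorem log_abs_prod (s : Multiset ℝ) (g : ℝ → ℝ) (h : (s.map g).prod ≠ 0) :
    Real.log |(s.map g).prod| = (s.map fun r => Real.log |g r|).sum := by
  induction s using Multiset.induction_on with
  | empty => simp
  | cons a s ih =>
    simp only [Multiset.map_cons, Multiset.prod_cons, Multiset.sum_cons] at h ⊢
    have h1 : g a ≠ 0 := left_ne_zero_of_mul h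
    have h2 : (s.map g).prod ≠ 0 := right_ne_zero_of_mul h
    rw [abs_mul, Real.log_mul (abs_pos.mpr h1).ne' (abs_pos.mpr h2).ne', ih h2]

theorem sum_log_nonneg (s : Multiset ℝ) (g : ℝ → ℝ) (m : ℤ) (hm : m ≠ 0)
    (h : (s.map g).prod = m) :
    0 ≤ (s.map fun r => Real.log |g r|).sum ∧ ∀ r ∈ s, g r ≠ 0 := by
  have hne : (s.map g).prod ≠ 0 := by rw [h]; exact_mod_cast hm
  refine ⟨?_, ?_⟩
  · rw [← log_abs_prod s g hne, h]
    apply Real.log_nonneg
    have : (1 : ℤ) ≤ |m| := Int.one_le_abs hm
    exact_mod_cast this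
  · intro r hr h0
    apply hne
    exact Multiset.prod_eq_zero (Multiset.mem_map.mpr ⟨r, hr, h0⟩)

theorem aeval_eq_prod (Q : ℤ[X]) (hm : Q.Monic) (hc : (Q.aroots ℝ).card = Q.natDegree) (x : ℝ) :
    aeval x Q = ((Q.aroots ℝ).map fun r => x - r).prod := by
  have hm' : (Q.map (algebraMap ℤ ℝ)).Monic := hm.map _
  have hs : (Q.map (algebraMap ℤ ℝ)).Splits := by
    rw [splits_iff_card_roots, hm.natDegree_map]; exact hc
  have h := hs.eq_prod_roots_of_monic hm'
  rw [aeval_def, eval₂_eq_eval_map, h, eval_multiset_prod, Multiset.map_map]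
  simp [aroots]

theorem golden_sum : ((-3 + Real.sqrt 5) / 2) + ((-3 - Real.sqrt 5) / 2) = -3 := by ring

theorem golden_prod : ((-3 + Real.sqrt 5) / 2) * ((-3 - Real.sqrt 5) / 2) = 1 := by
  have h : Real.sqrt 5 ^ 2 = 5 := Real.sq_sqrt (by norm_num)
  nlinarith only [h]

theorem norm_ne_zero (a b : ℤ) (h : a ^ 2 - 3 * a * b + b ^ 2 = 0) : a = 0 ∧ b = 0 := by
  have h5 : Irrational (Real.sqrt 5) := by
    have := Nat.Prime.irrational_sqrt (by norm_num : Nat.Prime 5)
    simpa using this
  have hb : b = 0 := by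
    by_contra hb
    apply h5
    have e : ((2 * a - 3 * b : ℤ) : ℝ) ^ 2 = 5 * (b : ℝ) ^ 2 := by
      have : (2 * a - 3 * b) ^ 2 = 5 * b ^ 2 := by nlinarith only [h]
      exact_mod_cast this
    have hb' : (b : ℝ) ≠ 0 := by exact_mod_cast hb
    refine ⟨|((2 * a - 3 * b : ℤ) : ℚ) / b|, ?_⟩
    have : (5 : ℝ) = (((2 * a - 3 * b : ℤ) : ℝ) / b) ^ 2 := by
      rw [div_pow, e]; field_simp
    rw [this, Real.sqrt_sq_eq_abs]
    push_cast
    rfl
  subst hb
  simp at h
  exact ⟨h, rfl⟩

theorem quad_monic : (X ^ 2 + 3 * X + 1 : ℤ[X]).Monic := by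
  monicity!

theorem quad_natDegree : (X ^ 2 + 3 * X + 1 : ℤ[X]).natDegree = 2 := by
  compute_degree!

theorem quad_aroots : (X ^ 2 + 3 * X + 1 : ℤ[X]).aroots ℝ =
    {(-3 + Real.sqrt 5) / 2, (-3 - Real.sqrt 5) / 2} := by
  have h : (X ^ 2 + 3 * X + 1 : ℤ[X]).map (algebraMap ℤ ℝ) =
      (({(-3 + Real.sqrt 5) / 2, (-3 - Real.sqrt 5) / 2} : Multiset ℝ).map
        fun r => X - C r).prod := by
    simp only [Multiset.insert_eq_cons, Multiset.map_cons, Multiset.map_singleton,
      Multiset.prod_cons, Multiset.prod_singleton]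
    have e : (X - C ((-3 + Real.sqrt 5) / 2)) * (X - C ((-3 - Real.sqrt 5) / 2)) =
        X ^ 2 - C (((-3 + Real.sqrt 5) / 2) + ((-3 - Real.sqrt 5) / 2)) * X
          + C (((-3 + Real.sqrt 5) / 2) * ((-3 - Real.sqrt 5) / 2)) := by
      rw [C_add, C_mul]; ring
    rw [e, golden_sum, golden_prod]
    simp
    rfl
  rw [aroots, h, roots_multiset_prod_X_sub_C]

/-- The case where none of the auxiliary polynomials divides `Q`. -/
theorem sss_coprime (Q : ℤ[X]) (hm : Q.Monic) (hc : (Q.aroots ℝ).card = Q.natDegree)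
    (hneg : ∀ r ∈ Q.aroots ℝ, r ≤ 0) (h1 : Q.eval (-1) ≠ 0) (h0 : Q.eval 0 ≠ 0)
    (h2 : Q.eval (-2) ≠ 0) (h3 : ¬ (X ^ 2 + 3 * X + 1 : ℤ[X]) ∣ Q) :
    0 ≤ ((Q.aroots ℝ).map wt).sum := by
  have ev : ∀ m : ℤ, ((Q.aroots ℝ).map fun r => (m : ℝ) - r).prod = ((Q.eval m : ℤ) : ℝ) := by
    intro m
    rw [← aeval_eq_prod Q hm hc]
    exact aeval_algebraMap_apply_eq_algebraMap_eval m Q
  obtain ⟨s0, n0⟩ := sum_log_nonneg _ _ _ h0 (ev 0)
  obtain ⟨s1, n1⟩ := sum_log_nonneg _ _ _ h1 (ev (-1))
  obtain ⟨s2, n2⟩ := sum_log_nonneg _ _ _ h2 (ev (-2))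
  set R := Q %ₘ (X ^ 2 + 3 * X + 1 : ℤ[X]) with hR
  have hRdeg : R.natDegree < 2 := by
    have := natDegree_modByMonic_lt Q quad_monic (by
      intro h
      have := quad_natDegree
      rw [h] at this
      simp at this)
    rwa [quad_natDegree] at this
  have hRne : R ≠ 0 := fun h => h3 ((modByMonic_eq_zero_iff_dvd quad_monic).mp h)
  have hRform : R = C (R.coeff 1) * X + C (R.coeff 0) :=
    eq_X_add_C_of_natDegree_le_one (by omega)
  have hev : ∀ x : ℝ, x ^ 2 + 3 * x + 1 = 0 → aeval x Q = R.coeff 1 * x + R.coeff 0 := by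
    intro x hx
    have e := modByMonic_add_div Q (X ^ 2 + 3 * X + 1 : ℤ[X])
    have hq : aeval x (X ^ 2 + 3 * X + 1 : ℤ[X]) = 0 := by
      simp only [map_add, map_mul, map_pow, aeval_X, map_one, map_ofNat]; exact hx
    rw [← e, map_add, map_mul, hq, zero_mul, add_zero, ← hR]
    conv_lhs => rw [hRform]
    simp
  set a := R.coeff 1
  set b := R.coeff 0
  have hN : a ^ 2 - 3 * a * b + b ^ 2 ≠ 0 := by
    intro h
    obtain ⟨ha, hb⟩ := norm_ne_zero a b h
    apply hRne
    rw [hRform, ha, hb]; simp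
  have g1 := golden_sum
  have g2 := golden_prod
  set p := (-3 + Real.sqrt 5) / 2
  set q := (-3 - Real.sqrt 5) / 2
  have hp : p ^ 2 + 3 * p + 1 = 0 := by
    have : q = -3 - p := by linarith only [g1]
    rw [this] at g2; nlinarith only [g2]
  have hq : q ^ 2 + 3 * q + 1 = 0 := by
    have : p = -3 - q := by linarith only [g1]
    rw [this] at g2; nlinarith only [g2]
  have ev3 : ((Q.aroots ℝ).map fun r => r ^ 2 + 3 * r + 1).prod =
      ((a ^ 2 - 3 * a * b + b ^ 2 : ℤ) : ℝ) := by
    have e1 := aeval_eq_prod Q hm hc p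
    have e2 := aeval_eq_prod Q hm hc q
    have e : ((Q.aroots ℝ).map fun r => r ^ 2 + 3 * r + 1).prod =
        ((Q.aroots ℝ).map fun r => p - r).prod * ((Q.aroots ℝ).map fun r => q - r).prod := by
      rw [← Multiset.prod_map_mul]
      congr 1
      apply Multiset.map_congr rfl
      intro r _
      linear_combination (r : ℝ) * g1 - g2
    rw [e, ← e1, ← e2, hev p hp, hev q hq]
    push_cast
    linear_combination (a : ℝ) ^ 2 * g2 + (a : ℝ) * b * g1
  obtain ⟨s3, n3⟩ := sum_log_nonneg _ _ _ hN ev3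
  have key : ((Q.aroots ℝ).map fun r => 5 / 2 * Real.log |((-1 : ℤ) : ℝ) - r|
      + 3 / 2 * Real.log |((-2 : ℤ) : ℝ) - r| + Real.log |r ^ 2 + 3 * r + 1|
      + 3 / 2 * Real.log |((0 : ℤ) : ℝ) - r|).sum ≤ ((Q.aroots ℝ).map wt).sum := by
    apply Multiset.sum_map_le_sum_map
    intro r hr
    have r0 : r ≠ 0 := by
      have := n0 r hr
      intro h; rw [h] at this; simp at this
    have rneg : 0 < -r := by
      have := hneg r hr
      rcases lt_or_eq_of_le this with h | h
      · linarith
      · exact absurd h r0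
    have := pointwise (-r) rneg
      (by have := n1 r hr; intro h; apply this; push_cast; linarith only [h])
      (by have := n2 r hr; intro h; apply this; push_cast; linarith only [h])
      (by have := n3 r hr; intro h; apply this; linarith only [h])
    have e1 : ((-1 : ℤ) : ℝ) - r = -r - 1 := by push_cast; ring
    have e2 : ((-2 : ℤ) : ℝ) - r = -r - 2 := by push_cast; ring
    have e3 : r ^ 2 + 3 * r + 1 = (-r) ^ 2 - 3 * (-r) + 1 := by ring
    have e4 : |((0 : ℤ) : ℝ) - r| = -r := by
      push_cast; rw [zero_sub, abs_of_pos rneg]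
    rw [e1, e2, e3, e4, wt, if_neg r0]
    linarith only [this]
  simp only [Multiset.sum_map_add, Multiset.sum_map_mul_left] at key
  exact (add_nonneg (add_nonneg (add_nonneg (mul_nonneg (by norm_num) s1)
    (mul_nonneg (by norm_num) s2)) s3) (mul_nonneg (by norm_num) s0)).trans key

theorem sss_factor (P Q' : ℤ[X]) (hP : P.Monic) (hm : (P * Q').Monic)
    (hc : ((P * Q').aroots ℝ).card = (P * Q').natDegree) :
    Q'.Monic ∧ (Q'.aroots ℝ).card = Q'.natDegree ∧
      (P * Q').aroots ℝ = P.aroots ℝ + Q'.aroots ℝ ∧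
      (P * Q').natDegree = P.natDegree + Q'.natDegree := by
  have hQ' : Q'.Monic := hP.of_mul_monic_left hm
  have hr : (P * Q').aroots ℝ = P.aroots ℝ + Q'.aroots ℝ := aroots_mul hm.ne_zero
  have hd : (P * Q').natDegree = P.natDegree + Q'.natDegree := hP.natDegree_mul hQ'
  refine ⟨hQ', ?_, hr, hd⟩
  rw [hr, hd, Multiset.card_add] at hc
  have a1 : (P.aroots ℝ).card ≤ P.natDegree := by
    have := card_roots' (P.map (algebraMap ℤ ℝ))
    rwa [hP.natDegree_map] at this
  have a2 : (Q'.aroots ℝ).card ≤ Q'.natDegree := by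
    have := card_roots' (Q'.map (algebraMap ℤ ℝ))
    rwa [hQ'.natDegree_map] at this
  omega

/-- The Schur-Siegel-Smyth type inequality. -/
theorem sss (n : ℕ) : ∀ Q : ℤ[X], Q.natDegree = n → Q.Monic →
    (Q.aroots ℝ).card = Q.natDegree → (∀ r ∈ Q.aroots ℝ, r ≤ 0) → Q.eval (-1) ≠ 0 →
    0 ≤ ((Q.aroots ℝ).map wt).sum := by
  induction n using Nat.strong_induction_on with
  | _ n ih =>
    intro Q hn hm hc hneg h1
    have step : ∀ P : ℤ[X], P.Monic → 0 < P.natDegree → ((P.aroots ℝ).map wt).sum = 0 →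
        P ∣ Q → 0 ≤ ((Q.aroots ℝ).map wt).sum := by
      intro P hP hd hw ⟨Q', hQ'⟩
      subst hQ'
      obtain ⟨m', c', r', d'⟩ := sss_factor P Q' hP hm hc
      rw [r', Multiset.map_add, Multiset.sum_add, hw, zero_add]
      apply ih Q'.natDegree (by omega) Q' rfl m' c'
      · intro r hr
        apply hneg
        rw [r']; exact Multiset.mem_add.mpr (Or.inr hr)
      · rw [eval_mul] at h1
        exact right_ne_zero_of_mul h1
    by_cases h0 : Q.eval 0 = 0
    · apply step (X - C 0) (monic_X_sub_C 0) (by simp) _ (dvd_iff_isRoot.mpr h0)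
      rw [aroots_X_sub_C]; simp [wt]
    by_cases h2 : Q.eval (-2) = 0
    · apply step (X - C (-2)) (monic_X_sub_C _) (by rw [natDegree_X_sub_C]; norm_num) _
        (dvd_iff_isRoot.mpr h2)
      rw [aroots_X_sub_C]; simp [wt]; norm_num
    by_cases h3 : (X ^ 2 + 3 * X + 1 : ℤ[X]) ∣ Q
    · apply step _ quad_monic (by rw [quad_natDegree]; norm_num) _ h3
      rw [quad_aroots]
      have g1 := golden_sum
      have g2 := golden_prod
      set p := (-3 + Real.sqrt 5) / 2
      set q := (-3 - Real.sqrt 5) / 2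
      have hp : p ≠ 0 := by intro h; rw [h] at g2; simp at g2
      have hq : q ≠ 0 := by intro h; rw [h] at g2; simp at g2
      simp only [Multiset.insert_eq_cons, Multiset.map_cons, Multiset.map_singleton,
        Multiset.sum_cons, Multiset.sum_singleton, wt, if_neg hp, if_neg hq]
      linear_combination (p + q - 2) * g1 - 2 * g2
    exact sss_coprime Q hm hc hneg h1 h0 h2 h3

end Pool.Agent.Work.MP_ce8257_co
end

-- merged part: Pool.Agent.Work.MP_ce8257_co.Graph
section
/-!
Real-rooted domination polynomials: every vertex is a leaf or has one or two leaf neighbours.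
-/

set_option autoImplicit false

open Polynomial Finset

namespace Pool.Agent.Work.MP_ce8257_co

theorem splits_of_real (p : ℝ[X]) (h : ∀ z : ℂ, aeval z p = 0 → z.im = 0) : p.Splits := by
  apply Splits.of_splits_map (algebraMap ℝ ℂ) (IsAlgClosed.splits _)
  intro a ha
  have h0 : aeval a p = 0 := by
    have := (mem_roots'.mp ha).2
    rwa [IsRoot.def, eval_map_algebraMap] at this
  exact ⟨a.re, Complex.ext (by simp) (by simp [h a h0])⟩

theorem esymm_one' (s : Multiset ℝ) : s.esymm 1 = s.sum := by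
  simp [Multiset.esymm, Multiset.powersetCard_one, Multiset.map_map]

theorem esymm_two' (s : Multiset ℝ) :
    (s.map fun r => r ^ 2).sum = s.sum ^ 2 - 2 * s.esymm 2 := by
  induction s using Multiset.induction_on with
  | empty => simp [Multiset.esymm]
  | cons a s ih =>
    have e : (a ::ₘ s).esymm 2 = s.esymm 2 + a * s.sum := by
      rw [← esymm_one' s]
      simp only [Multiset.esymm, Multiset.powersetCard_cons, Multiset.map_add, Multiset.sum_add,
        Multiset.map_map, Function.comp_def, Multiset.prod_cons, Multiset.sum_map_mul_left]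
    rw [Multiset.map_cons, Multiset.sum_cons, Multiset.sum_cons, ih, e]
    ring

theorem power_sums (p : ℝ[X]) (n : ℕ) (hm : p.Monic) (hd : p.natDegree = n + 2)
    (hs : p.Splits) :
    p.roots.sum = - p.coeff (n + 1) ∧
      (p.roots.map fun r => r ^ 2).sum = p.coeff (n + 1) ^ 2 - 2 * p.coeff n := by
  have h1 := Polynomial.coeff_eq_esymm_roots_of_splits hs (k := n + 1) (by omega)
  have h2 := Polynomial.coeff_eq_esymm_roots_of_splits hs (k := n) (by omega)
  rw [hm.leadingCoeff, hd] at h1 h2
  rw [show n + 2 - (n + 1) = 1 by omega, esymm_one'] at h1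
  rw [show n + 2 - n = 2 by omega] at h2
  refine ⟨by rw [h1]; ring, ?_⟩
  rw [esymm_two', h1, h2]; ring

/-- `y ^ k + y - 1` has a non-real root when `k ≥ 3`. -/
theorem exists_nonreal (k : ℕ) (hk : 3 ≤ k) : ∃ y : ℂ, y ^ k + y - 1 = 0 ∧ y.im ≠ 0 := by
  by_contra hcon
  push Not at hcon
  obtain ⟨n, rfl⟩ : ∃ n, k = n + 3 := ⟨k - 3, by omega⟩
  set p : ℝ[X] := X ^ (n + 3) + X - 1 with hp
  have hd : p.natDegree = n + 1 + 2 := by
    rw [hp]; compute_degree!
  have hm : p.Monic := by
    rw [Monic, leadingCoeff, hd, hp]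
    simp [coeff_X, coeff_one, coeff_X_pow]
  have hs : p.Splits := by
    apply splits_of_real
    intro z hz
    apply hcon
    simpa [hp] using hz
  obtain ⟨-, h2⟩ := power_sums p (n + 1) hm hd hs
  have c1 : p.coeff (n + 1 + 1) = 0 := by
    simp [hp, coeff_X, coeff_one, coeff_X_pow]
  have c2 : 0 ≤ p.coeff (n + 1) := by
    simp only [hp, coeff_sub, coeff_add, coeff_X, coeff_one, coeff_X_pow]
    split_ifs <;> first | omega | contradiction | norm_num
  have hcard : p.roots.card = n + 1 + 2 := by rw [← hs.natDegree_eq_card_roots, hd]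
  obtain ⟨r, hr⟩ := Multiset.card_pos_iff_exists_mem.mp (by omega : 0 < p.roots.card)
  have hr0 : r ≠ 0 := by
    rintro rfl
    have := (mem_roots'.mp hr).2
    simp [hp] at this
  have hle : r ^ 2 ≤ (p.roots.map fun r => r ^ 2).sum := by
    apply Multiset.single_le_sum
    · intro x hx
      obtain ⟨y, -, rfl⟩ := Multiset.mem_map.mp hx
      positivity
    · exact Multiset.mem_map.mpr ⟨r, hr, rfl⟩
  have : 0 < r ^ 2 := by positivity
  rw [c1] at h2
  nlinarith only [h2, c2, hle, this]

theorem sum_symm_zmod_two {α : Type*} [Fintype α] [DecidableEq α] (f : α → α → ZMod 2)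
    (hf : ∀ a b, f a b = f b a) : ∑ a, ∑ b, f a b = ∑ a, f a a := by
  rw [← Finset.sum_product', ← Finset.diag_union_offDiag,
    Finset.sum_union (Finset.disjoint_diag_offDiag _), Finset.sum_diag]
  have : ∑ p ∈ (univ : Finset α).offDiag, f p.1 p.2 = 0 := by
    apply Finset.sum_involution (fun p _ => p.swap)
    · intro p _
      simp only [Prod.fst_swap, Prod.snd_swap]
      rw [hf p.2 p.1]
      exact CharTwo.add_self_eq_zero _
    · intro p hp _ h
      have := (Finset.mem_offDiag.mp hp).2.2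
      apply this
      have h1 := congrArg Prod.fst h
      simpa using h1.symm
    · intro p _; simp
    · intro p hp
      have := (Finset.mem_offDiag.mp hp).2.2
      exact Finset.mem_offDiag.mpr ⟨mem_univ _, mem_univ _, this.symm⟩
  rw [this, add_zero]

section graph

variable {V : Type} [Fintype V] [DecidableEq V] (G : SimpleGraph V) [DecidableRel G.Adj]

/-- The dominating sets. -/
def doms : Finset (Finset V) := {S : Finset V | ∀ v, v ∈ S ∨ ∃ u ∈ S, G.Adj v u}

theorem mem_doms (S : Finset V) : S ∈ doms G ↔ ∀ v, v ∈ S ∨ ∃ u ∈ S, G.Adj v u := by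
  simp [doms]

/-- The domination polynomial. -/
noncomputable def domPoly : ℤ[X] := ∑ S ∈ doms G, X ^ S.card

theorem coeff_domPoly (k : ℕ) :
    (domPoly G).coeff k = (#{S ∈ doms G | S.card = k} : ℕ) := by
  rw [domPoly, finsetSum_coeff, Finset.card_filter]
  push_cast
  apply Finset.sum_congr rfl
  intro S _
  rw [coeff_X_pow]
  simp [eq_comm]

/-- Brouwer's theorem: the number of dominating sets is odd. -/
theorem card_doms_odd : ((doms G).card : ZMod 2) = 1 := by
  classical
  let r : Finset V → Finset V → Prop := fun S T => ∀ s ∈ S, ∀ t ∈ T, s ≠ t ∧ ¬ G.Adj s t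
  have hsymm : ∀ S T, r S T → r T S := by
    intro S T h t ht s hs
    exact ⟨(h s hs t ht).1.symm, fun a => (h s hs t ht).2 a.symm⟩
  have h1 := sum_symm_zmod_two (fun S T : Finset V => if r S T then (1 : ZMod 2) else 0)
    (by
      intro S T
      have : r S T ↔ r T S := ⟨hsymm S T, hsymm T S⟩
      simp only [this])
  have h2 : ∑ S : Finset V, (if r S S then (1 : ZMod 2) else 0) = 1 := by
    rw [Finset.sum_eq_single ∅]
    · simp [r]
    · intro S _ hS
      obtain ⟨s, hs⟩ := Finset.nonempty_iff_ne_empty.mpr hS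
      rw [if_neg]
      intro h
      exact (h s hs s hs).1 rfl
    · simp
  have h3 : ∀ S : Finset V, ∑ T : Finset V, (if r S T then (1 : ZMod 2) else 0) =
      if S ∈ doms G then 1 else 0 := by
    intro S
    let F : Finset V := {t | ∀ s ∈ S, s ≠ t ∧ ¬ G.Adj s t}
    have e : ∀ T, r S T ↔ T ∈ F.powerset := by
      intro T
      simp only [r, F, Finset.mem_powerset, Finset.subset_iff, Finset.mem_filter, Finset.mem_univ,
        true_and]
      exact ⟨fun h t ht s hs => h s hs t ht, fun h s hs t ht => h ht s hs⟩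
    simp only [e]
    rw [Finset.sum_boole, Finset.filter_mem_eq_inter, Finset.univ_inter, Finset.card_powerset]
    push_cast
    have two : (2 : ZMod 2) = 0 := rfl
    by_cases hS : S ∈ doms G
    · have : F = ∅ := by
        rw [Finset.eq_empty_iff_forall_notMem]
        intro t ht
        simp only [F, Finset.mem_filter, Finset.mem_univ, true_and] at ht
        rcases (mem_doms G S).mp hS t with h | ⟨u, hu, h⟩
        · exact (ht t h).1 rfl
        · exact (ht u hu).2 h.symm
      rw [this, if_pos hS]; simp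
    · rw [if_neg hS, two]
      apply zero_pow
      rw [mem_doms] at hS
      push Not at hS
      obtain ⟨v, hv, hv'⟩ := hS
      apply Finset.card_ne_zero.mpr
      refine ⟨v, ?_⟩
      simp only [F, Finset.mem_filter, Finset.mem_univ, true_and]
      intro s hs
      exact ⟨fun h => hv (h ▸ hs), fun h => hv' s hs h.symm⟩
  simp only [h3] at h1
  rw [h2, Finset.sum_boole, Finset.filter_mem_eq_inter, Finset.univ_inter] at h1
  exact h1

theorem eval_neg_one_ne : (domPoly G).eval (-1) ≠ 0 := by
  intro h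
  have h1 : (((domPoly G).eval (-1) : ℤ) : ZMod 2) = 1 := by
    rw [domPoly, eval_finsetSum]
    push_cast
    rw [← card_doms_odd G, Finset.card_eq_sum_ones]
    push_cast
    apply Finset.sum_congr rfl
    intro S _
    simp
  rw [h] at h1
  simp at h1

theorem card_doms_compl (j : ℕ) (hj : j ≤ Fintype.card V) :
    #{S ∈ doms G | S.card = Fintype.card V - j} =
      #{T ∈ powersetCard j (univ : Finset V) | Tᶜ ∈ doms G} := by
  apply Finset.card_bij (fun S _ => Sᶜ)
  · intro S hS
    rw [Finset.mem_filter] at hS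
    simp only [Finset.mem_filter, Finset.mem_powersetCard, Finset.subset_univ, true_and,
      compl_compl, Finset.card_compl]
    exact ⟨by omega, hS.1⟩
  · intro S _ T _ h
    exact compl_injective h
  · intro T hT
    simp only [Finset.mem_filter, Finset.mem_powersetCard, Finset.subset_univ, true_and] at hT
    refine ⟨Tᶜ, ?_, compl_compl T⟩
    rw [Finset.mem_filter, Finset.card_compl, hT.1]
    exact ⟨hT.2, rfl⟩

/-- The pairs whose complement is not dominating (the pendant edges). -/
def badPairs : Finset (Finset V) := {T ∈ powersetCard 2 (univ : Finset V) | Tᶜ ∉ doms G}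

theorem univ_mem_doms : (univ : Finset V) ∈ doms G := by
  rw [mem_doms]; intro v; exact Or.inl (mem_univ v)

theorem coeff_top : (domPoly G).coeff (Fintype.card V) = 1 := by
  have := card_doms_compl G 0 (Nat.zero_le _)
  rw [Nat.sub_zero] at this
  rw [coeff_domPoly, this, Finset.powersetCard_zero, Finset.filter_singleton,
    if_pos (by simpa using univ_mem_doms G)]
  simp

theorem natDegree_domPoly : (domPoly G).natDegree = Fintype.card V := by
  apply le_antisymm
  · rw [natDegree_le_iff_coeff_eq_zero]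
    intro N hN
    rw [coeff_domPoly]
    have : ({S ∈ doms G | S.card = N} : Finset (Finset V)) = ∅ := by
      rw [Finset.filter_eq_empty_iff]
      intro S _ h
      have := Finset.card_le_univ S
      omega
    rw [this]; simp
  · apply le_natDegree_of_ne_zero
    rw [coeff_top]; exact one_ne_zero

theorem monic_domPoly : (domPoly G).Monic := by
  rw [Monic, leadingCoeff, natDegree_domPoly, coeff_top]

theorem coeff_pred (hiso : ∀ v, ∃ w, G.Adj v w) (m : ℕ) (hm : Fintype.card V = m + 2) :
    (domPoly G).coeff (m + 1) = (m + 2 : ℕ) := by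
  have := card_doms_compl G 1 (by omega)
  rw [show Fintype.card V - 1 = m + 1 by omega] at this
  rw [coeff_domPoly, this, Finset.filter_true_of_mem, Finset.card_powersetCard, Finset.card_univ,
    hm, Nat.choose_one_right]
  intro T hT
  obtain ⟨a, rfl⟩ := Finset.card_eq_one.mp (Finset.mem_powersetCard.mp hT).2
  rw [mem_doms]
  intro v
  by_cases h : v = a
  · right
    obtain ⟨w, hw⟩ := hiso v
    refine ⟨w, ?_, hw⟩
    simp only [Finset.mem_compl, Finset.mem_singleton]
    rw [← h]; exact hw.ne.symm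
  · left; simpa using h

theorem coeff_pred_pred (m : ℕ) (hm : Fintype.card V = m + 2) :
    2 * (domPoly G).coeff m = (m + 2) * (m + 1) - 2 * (badPairs G).card := by
  have := card_doms_compl G 2 (by omega)
  rw [show Fintype.card V - 2 = m by omega] at this
  rw [coeff_domPoly, this]
  have h := Finset.card_filter_add_card_filter_not (s := powersetCard 2 (univ : Finset V))
    (fun T => Tᶜ ∈ doms G)
  rw [Finset.card_powersetCard, Finset.card_univ, hm] at h
  have h2 : 2 * (m + 2).choose 2 = (m + 2) * (m + 1) := by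
    rw [Nat.choose_two_right, show m + 2 - 1 = m + 1 by omega]
    apply Nat.mul_div_cancel'
    rw [mul_comm]
    exact (Nat.even_mul_succ_self (m + 1)).two_dvd
  rw [← h] at h2
  have h3 : (2 * ((#{T ∈ powersetCard 2 (univ : Finset V) | Tᶜ ∈ doms G} : ℕ) +
      ((badPairs G).card : ℤ)) : ℤ) = (m + 2) * (m + 1) := by
    exact_mod_cast h2
  linarith only [h3]

theorem aeval_domPoly {R : Type*} [CommRing R] (z : R) :
    aeval z (domPoly G) = ∑ S ∈ doms G, z ^ S.card := by
  simp [domPoly]

/-- If the domination polynomial is real-rooted, complements of dominating sets have at most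
as many elements as there are pendant edges. -/
theorem card_le_badPairs (hiso : ∀ v, ∃ w, G.Adj v w) (m : ℕ) (hm : Fintype.card V = m + 2)
    (hreal : ∀ z : ℂ, ∑ S ∈ doms G, z ^ S.card = 0 → z.im = 0)
    (T : Finset V) (hT : Tᶜ ∈ doms G) : T.card ≤ (badPairs G).card := by
  set p : ℝ[X] := (domPoly G).map (algebraMap ℤ ℝ) with hp
  have hpm : p.Monic := (monic_domPoly G).map _
  have hpd : p.natDegree = m + 2 := by
    rw [hp, (monic_domPoly G).natDegree_map, natDegree_domPoly, hm]
  have hs : p.Splits := by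
    apply splits_of_real
    intro z hz
    apply hreal
    rw [← aeval_domPoly, ← hz, hp, aeval_map_algebraMap]
  have hcard : p.roots.card = m + 2 := by rw [← hs.natDegree_eq_card_roots, hpd]
  have hneg : ∀ r ∈ p.roots, r ≤ 0 := by
    intro r hr
    by_contra hpos
    push Not at hpos
    have h0 := (mem_roots'.mp hr).2
    rw [IsRoot.def, hp, eval_map_algebraMap, aeval_domPoly] at h0
    have : 0 < ∑ S ∈ doms G, r ^ S.card :=
      Finset.sum_pos (fun S _ => pow_pos hpos _) ⟨univ, univ_mem_doms G⟩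
    linarith only [h0, this]
  have key := sss _ (domPoly G) rfl (monic_domPoly G)
    (by rw [natDegree_domPoly, hm]; exact hcard) hneg (eval_neg_one_ne G)
  change 0 ≤ (p.roots.map wt).sum at key
  obtain ⟨s1, s2⟩ := power_sums p m hpm hpd hs
  have c1 : p.coeff (m + 1) = m + 2 := by
    rw [hp, coeff_map, coeff_pred G hiso m hm]; simp
  have c2 : 2 * p.coeff m = (m + 2) * (m + 1) - 2 * (badPairs G).card := by
    rw [hp, coeff_map]
    have := coeff_pred_pred G m hm
    simp only [eq_intCast]
    exact_mod_cast this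
  have hw : ∀ s : Multiset ℝ, (s.map wt).sum =
      (s.map fun r => r ^ 2).sum + s.sum - 2 * s.card + 2 * s.count 0 := by
    intro s
    induction s using Multiset.induction_on with
    | empty => simp
    | cons a s ih =>
      rw [Multiset.map_cons, Multiset.sum_cons, ih, Multiset.map_cons, Multiset.sum_cons,
        Multiset.sum_cons, Multiset.card_cons, Multiset.count_cons, wt]
      by_cases ha : a = 0
      · subst ha; simp; ring
      · rw [if_neg ha, if_neg (Ne.symm ha)]; push_cast; ring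
  have hcount : p.roots.count 0 ≤ Tᶜ.card := by
    rw [count_roots]
    by_contra hlt
    push Not at hlt
    have hdvd := pow_rootMultiplicity_dvd p 0
    rw [C_0, sub_zero, X_pow_dvd_iff] at hdvd
    have h0 := hdvd _ hlt
    rw [hp, coeff_map, coeff_domPoly] at h0
    simp only [eq_intCast, Int.cast_natCast, Nat.cast_eq_zero, Finset.card_eq_zero] at h0
    have : Tᶜ ∈ ({S ∈ doms G | S.card = Tᶜ.card} : Finset (Finset V)) :=
      Finset.mem_filter.mpr ⟨hT, rfl⟩
    rw [h0] at this
    simp at this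
  have hTc : Tᶜ.card + T.card = m + 2 := by
    rw [Finset.card_compl, ← hm]
    have := Finset.card_le_univ T
    omega
  rw [hw, s1, s2, c1, hcard] at key
  have hcount' : (p.roots.count 0 : ℝ) ≤ Tᶜ.card := by exact_mod_cast hcount
  have hTc' : (Tᶜ.card : ℝ) + T.card = m + 2 := by exact_mod_cast hTc
  push_cast at key
  have : (T.card : ℝ) ≤ (badPairs G).card := by nlinarith only [c2, hcount', hTc', key]
  exact_mod_cast this

omit [DecidableEq V] in
theorem leaf_unique {u a b : V} (hu : G.degree u = 1) (ha : G.Adj u a) (hb : G.Adj u b) :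
    a = b := by
  rw [← SimpleGraph.card_neighborFinset_eq_degree] at hu
  exact Finset.card_le_one.mp hu.le a (by simpa using ha) b (by simpa using hb)

theorem bad_end (hiso : ∀ v, ∃ w, G.Adj v w) (T : Finset V) (hT : T ∈ badPairs G) :
    ∃ u, G.degree u = 1 ∧ T = insert u (G.neighborFinset u) := by
  simp only [badPairs, Finset.mem_filter, Finset.mem_powersetCard, Finset.subset_univ, true_and,
    mem_doms] at hT
  obtain ⟨h2, hT⟩ := hT
  push Not at hT
  obtain ⟨u, hu, hu'⟩ := hT
  have hsub : insert u (G.neighborFinset u) ⊆ T := by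
    intro w hw
    rcases Finset.mem_insert.mp hw with rfl | hw
    · simpa using hu
    · by_contra h
      exact hu' w (by simpa using h) (by simpa using hw)
  have hc : (insert u (G.neighborFinset u)).card = G.degree u + 1 := by
    rw [Finset.card_insert_of_notMem (by simp), SimpleGraph.card_neighborFinset_eq_degree]
  have hpos : 0 < G.degree u := (G.degree_pos_iff_exists_adj u).mpr (hiso u)
  have hle := Finset.card_le_card hsub
  refine ⟨u, by omega, ?_⟩
  exact (Finset.eq_of_subset_of_card_le hsub (by omega)).symm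

/-- Every vertex is a leaf or adjacent to a leaf. -/
theorem leaf_or_stem (hiso : ∀ v, ∃ w, G.Adj v w)
    (hreal : ∀ z : ℂ, ∑ S ∈ doms G, z ^ S.card = 0 → z.im = 0) (v : V) :
    G.degree v = 1 ∨ ∃ u, G.Adj v u ∧ G.degree u = 1 := by
  by_contra hcon
  push Not at hcon
  obtain ⟨hv, hv'⟩ := hcon
  obtain ⟨m, hm⟩ : ∃ m, Fintype.card V = m + 2 := by
    obtain ⟨w, hw⟩ := hiso v
    have : 1 < Fintype.card V := Fintype.one_lt_card_iff.mpr ⟨v, w, hw.ne⟩
    exact ⟨Fintype.card V - 2, by omega⟩
  have hex : ∀ T : Finset V, ∃ u, T ∈ badPairs G →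
      G.degree u = 1 ∧ T = insert u (G.neighborFinset u) := by
    intro T
    by_cases h : T ∈ badPairs G
    · obtain ⟨u, hu⟩ := bad_end G hiso T h
      exact ⟨u, fun _ => hu⟩
    · exact ⟨v, fun h' => absurd h' h⟩
  choose φ hφ using hex
  set L := (badPairs G).image φ with hL
  have hLcard : L.card = (badPairs G).card := by
    apply Finset.card_image_of_injOn
    intro T hT T' hT' h
    rw [(hφ T hT).2, (hφ T' hT').2, h]
  have hLleaf : ∀ u ∈ L, G.degree u = 1 := by
    intro u hu
    obtain ⟨T, hT, rfl⟩ := Finset.mem_image.mp hu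
    exact (hφ T hT).1
  have hvL : v ∉ L := fun h => hv (hLleaf v h)
  have hdom : (insert v L)ᶜ ∈ doms G := by
    rw [mem_doms]
    intro w
    by_cases hw : w ∈ insert v L
    · right
      obtain ⟨u, hu⟩ := hiso w
      refine ⟨u, ?_, hu⟩
      rw [Finset.mem_compl]
      intro huL
      rcases Finset.mem_insert.mp hw with hw1 | hw1
      · rcases Finset.mem_insert.mp huL with hu1 | hu1
        · exact hu.ne (hw1.trans hu1.symm)
        · exact hv' u (hw1 ▸ hu) (hLleaf u hu1)
      · rcases Finset.mem_insert.mp huL with hu1 | hu1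
        · exact hv' w (hu1 ▸ hu.symm) (hLleaf w hw1)
        · obtain ⟨T, hT, rfl⟩ := Finset.mem_image.mp hw1
          obtain ⟨T', hT', rfl⟩ := Finset.mem_image.mp hu1
          have e : T = T' := by
            rw [(hφ T hT).2, (hφ T' hT').2]
            ext x
            simp only [Finset.mem_insert, SimpleGraph.mem_neighborFinset]
            constructor
            · rintro (rfl | hx)
              · exact Or.inr hu.symm
              · exact Or.inl (leaf_unique G (hφ T hT).1 hx hu)
            · rintro (rfl | hx)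
              · exact Or.inr hu
              · exact Or.inl (leaf_unique G (hφ T' hT').1 hx hu.symm)
          rw [e] at hu
          exact hu.ne rfl
    · left; simpa using hw
  have := card_le_badPairs G hiso m hm hreal _ hdom
  rw [Finset.card_insert_of_notMem hvL, hLcard] at this
  omega

/-- If every vertex is a leaf or a stem, the domination polynomial has the factor
`x (1 + x) ^ k + x ^ k` for a non-leaf `v` with `k` leaf neighbours. -/
theorem factor (hall : ∀ v, G.degree v = 1 ∨ ∃ u, G.Adj v u ∧ G.degree u = 1)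
    (v : V) (hv : G.degree v ≠ 1) (z : ℂ) :
    ∃ c : ℂ, ∑ S ∈ doms G, z ^ S.card =
      (z ^ #{u ∈ G.neighborFinset v | G.degree u = 1} +
        z * (1 + z) ^ #{u ∈ G.neighborFinset v | G.degree u = 1}) * c := by
  classical
  set Lv : Finset V := {u ∈ G.neighborFinset v | G.degree u = 1} with hLv
  have memLv : ∀ u, u ∈ Lv ↔ G.Adj v u ∧ G.degree u = 1 := by
    intro u; simp [hLv]
  have hvL : v ∉ Lv := fun h => hv ((memLv v).mp h).2
  set B := insert v Lv with hB
  let P1 : Finset V → Prop := fun S => v ∈ S ∨ Lv ⊆ S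
  let P2 : Finset V → Prop := fun S =>
    ∀ u, G.degree u = 1 → u ∉ Lv → u ∈ S ∨ ∃ w ∈ S, G.Adj u w
  have hdom : ∀ S, S ∈ doms G ↔ P1 (S ∩ B) ∧ P2 (S \ B) := by
    intro S
    rw [mem_doms]
    constructor
    · intro h
      refine ⟨?_, ?_⟩
      · by_cases hvS : v ∈ S
        · exact Or.inl (Finset.mem_inter.mpr ⟨hvS, Finset.mem_insert_self _ _⟩)
        · right
          intro u hu
          refine Finset.mem_inter.mpr ⟨?_, Finset.mem_insert_of_mem hu⟩
          rcases h u with h' | ⟨w, hw, hw'⟩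
          · exact h'
          · have := leaf_unique G ((memLv u).mp hu).2 hw' ((memLv u).mp hu).1.symm
            exact absurd (this ▸ hw) hvS
      · intro u hu huL
        have huB : u ∉ B := by
          intro hh
          rcases Finset.mem_insert.mp hh with h1 | h1
          · exact hv (h1 ▸ hu)
          · exact huL h1
        rcases h u with h' | ⟨w, hw, hw'⟩
        · exact Or.inl (Finset.mem_sdiff.mpr ⟨h', huB⟩)
        · right
          refine ⟨w, Finset.mem_sdiff.mpr ⟨hw, ?_⟩, hw'⟩
          intro hh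
          rcases Finset.mem_insert.mp hh with h1 | h1
          · exact huL ((memLv u).mpr ⟨h1 ▸ hw'.symm, hu⟩)
          · have := leaf_unique G ((memLv w).mp h1).2 hw'.symm ((memLv w).mp h1).1.symm
            exact hv (this ▸ hu)
    · rintro ⟨h1, h2⟩
      have hleaf : ∀ u, G.degree u = 1 → u ∈ S ∨ ∃ w ∈ S, G.Adj u w := by
        intro u hu
        by_cases huL : u ∈ Lv
        · rcases h1 with h | h
          · exact Or.inr ⟨v, (Finset.mem_inter.mp h).1, ((memLv u).mp huL).1.symm⟩
          · exact Or.inl (Finset.mem_inter.mp (h huL)).1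
        · rcases h2 u hu huL with h | ⟨w, hw, hw'⟩
          · exact Or.inl (Finset.mem_sdiff.mp h).1
          · exact Or.inr ⟨w, (Finset.mem_sdiff.mp hw).1, hw'⟩
      intro x
      rcases hall x with hx | ⟨u, hu, hu'⟩
      · exact hleaf x hx
      · rcases hleaf u hu' with h | ⟨w, hw, hw'⟩
        · exact Or.inr ⟨u, h, hu⟩
        · exact Or.inl (leaf_unique G hu' hw' hu.symm ▸ hw)
  refine ⟨∑ S ∈ (Bᶜ).powerset with P2 S, z ^ S.card, ?_⟩
  have e1 : ∑ S ∈ B.powerset with P1 S, z ^ S.card = z ^ Lv.card + z * (1 + z) ^ Lv.card := by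
    rw [Finset.sum_filter, hB, Finset.sum_powerset_insert hvL]
    congr 1
    · rw [Finset.sum_eq_single Lv]
      · rw [if_pos (Or.inr subset_rfl)]
      · intro S hS hne
        rw [if_neg]
        rintro (h | h)
        · exact hvL (Finset.mem_powerset.mp hS h)
        · exact hne (Finset.Subset.antisymm (Finset.mem_powerset.mp hS) h)
      · intro h; exact absurd (Finset.mem_powerset_self Lv) h
    · rw [add_comm 1 z, ← Finset.sum_pow_mul_eq_add_pow, Finset.mul_sum]
      apply Finset.sum_congr rfl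
      intro S hS
      rw [if_pos (Or.inl (Finset.mem_insert_self _ _)),
        Finset.card_insert_of_notMem (fun h => hvL (Finset.mem_powerset.mp hS h))]
      ring
  rw [← e1, Finset.sum_mul_sum, ← Finset.sum_product']
  apply Finset.sum_nbij' (fun S => (S ∩ B, S \ B)) (fun q => q.1 ∪ q.2)
  · intro S hS
    obtain ⟨a, b⟩ := (hdom S).mp hS
    simp only [Finset.mem_product, Finset.mem_filter, Finset.mem_powerset]
    refine ⟨⟨Finset.inter_subset_right, a⟩, ?_, b⟩
    intro x hx
    exact Finset.mem_compl.mpr (Finset.mem_sdiff.mp hx).2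
  · rintro ⟨S1, S2⟩ hq
    simp only [Finset.mem_product, Finset.mem_filter, Finset.mem_powerset] at hq
    obtain ⟨⟨a1, a2⟩, b1, b2⟩ := hq
    have i1 : (S1 ∪ S2) ∩ B = S1 := by
      ext x
      simp only [Finset.mem_inter, Finset.mem_union]
      exact ⟨fun h => h.1.resolve_right fun h' => Finset.mem_compl.mp (b1 h') h.2,
        fun h => ⟨Or.inl h, a1 h⟩⟩
    have i2 : (S1 ∪ S2) \ B = S2 := by
      ext x
      simp only [Finset.mem_sdiff, Finset.mem_union]
      exact ⟨fun h => h.1.resolve_left fun h' => h.2 (a1 h'),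
        fun h => ⟨Or.inr h, Finset.mem_compl.mp (b1 h)⟩⟩
    rw [hdom]
    simp only [i1, i2]
    exact ⟨a2, b2⟩
  · intro S _
    simp only
    rw [Finset.union_comm, Finset.sdiff_union_inter]
  · rintro ⟨S1, S2⟩ hq
    simp only [Finset.mem_product, Finset.mem_filter, Finset.mem_powerset] at hq
    obtain ⟨⟨a1, -⟩, b1, -⟩ := hq
    have i1 : (S1 ∪ S2) ∩ B = S1 := by
      ext x
      simp only [Finset.mem_inter, Finset.mem_union]
      exact ⟨fun h => h.1.resolve_right fun h' => Finset.mem_compl.mp (b1 h') h.2,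
        fun h => ⟨Or.inl h, a1 h⟩⟩
    have i2 : (S1 ∪ S2) \ B = S2 := by
      ext x
      simp only [Finset.mem_sdiff, Finset.mem_union]
      exact ⟨fun h => h.1.resolve_left fun h' => h.2 (a1 h'),
        fun h => ⟨Or.inr h, Finset.mem_compl.mp (b1 h)⟩⟩
    simp only [i1, i2]
  · intro S _
    simp only
    rw [← pow_add, Finset.card_inter_add_card_sdiff]

/-- Oboudi's conjecture. -/
theorem star_like (hiso : ∀ v, ∃ w, G.Adj v w)
    (hreal : ∀ z : ℂ, ∑ S ∈ doms G, z ^ S.card = 0 → z.im = 0) (v : V) :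
    G.degree v = 1 ∨ #{u ∈ G.neighborFinset v | G.degree u = 1} = 1 ∨
      #{u ∈ G.neighborFinset v | G.degree u = 1} = 2 := by
  have hall := leaf_or_stem G hiso hreal
  by_cases hv : G.degree v = 1
  · exact Or.inl hv
  right
  set k := #{u ∈ G.neighborFinset v | G.degree u = 1} with hk
  have hpos : 0 < k := by
    obtain ⟨u, hu, hu'⟩ := (hall v).resolve_left hv
    exact Finset.card_pos.mpr ⟨u, by simp [hu, hu']⟩
  by_contra hcon
  have hk3 : 3 ≤ k := by omega
  obtain ⟨y, hy, hy'⟩ := exists_nonreal k hk3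
  have hy1 : y - 1 ≠ 0 := by
    intro h
    apply hy'
    have : y = 1 := by linear_combination h
    rw [this]; simp
  obtain ⟨c, hc⟩ := factor G hall v hv (y - 1)⁻¹
  rw [← hk] at hc
  have hz : (y - 1)⁻¹ ^ k + (y - 1)⁻¹ * (1 + (y - 1)⁻¹) ^ k = 0 := by
    have e : 1 + (y - 1)⁻¹ = y * (y - 1)⁻¹ := by field_simp; ring
    rw [e, mul_pow]
    have : (y - 1)⁻¹ ^ k + (y - 1)⁻¹ * (y ^ k * (y - 1)⁻¹ ^ k) =
        (y - 1)⁻¹ ^ k * (y - 1)⁻¹ * (y ^ k + y - 1) := by
      field_simp; ring
    rw [this, hy, mul_zero]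
  rw [hz, zero_mul] at hc
  have him := hreal _ hc
  apply hy'
  have : y = ((y - 1)⁻¹)⁻¹ + 1 := by rw [inv_inv]; ring
  rw [this, Complex.add_im, Complex.inv_im, him]
  simp

end graph

end Pool.Agent.Work.MP_ce8257_co
end
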